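import Pool.Agent.K7.H81.SLC

set_option autoImplicit false

/-!
# Boundaries of invariant sets of the standard map have length at least `exp (c η a²)`

Let `S_a (x, y) = (2x - y + a sin 2πx, x)` on the torus, with `|a| ≥ 256`; NO parameter is excluded.
Ergodicity (part of the conjecture of Sinai) says that an invariant set has area `0` or `1`.  Here: an
invariant set whose area lies in `[η, 1 - η]` has a boundary of length at least about
`exp (η |a|² / 1920)`, the neighbourhood of radius `|a| ^ (-n / 4)` of the boundary has area at least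
`η - 480 n log |a| / |a|² - 15 / √|a|` for all `n`, and the map is mixing down to the scale
`|a| ^ (-n / 4)` up to times `n = o(|a|² / log |a|)`.

The time horizon `|a|² / log |a|` is reached by letting the single derivatives `2 + 2πa cos 2πx_k`
along the orbit be small (this happens about once in `|a|` steps), as long as no product of two
consecutive derivatives is small (which happens about `log |a|` times in `|a|²` steps).  For some
parameters, for example near the integers, there are elliptic islands of area about `|a|^(-2)`.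
-/

open Real MeasureTheory
open scoped ENNReal

namespace Pool.Agent.Results.MP_9ee088_an.BoundariesUpToSquare

/-- The torus `ℝ² / ℤ²`, with its Lebesgue measure `volume` and the sup distance. -/
abbrev Torus := UnitAddCircle × UnitAddCircle

/-- `T` is the standard map `S_a` of the torus. -/
def IsStandardMap (a : ℝ) (T : Torus → Torus) : Prop :=
  ∀ x y : ℝ, T ((x : UnitAddCircle), (y : UnitAddCircle)) =
    (((2 * x - y + a * sin (2 * π * x) : ℝ) : UnitAddCircle), (x : UnitAddCircle))

/-- The error `480 n log |a| / |a|² + 15 / √|a|`. -/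
noncomputable def err (a : ℝ) (n : ℕ) : ℝ := 480 * n * log |a| / |a| ^ 2 + 15 / √|a|

/-- The scale `|a| ^ (-n / 4)`. -/
noncomputable def scale (a : ℝ) (n : ℕ) : ℝ := |a| ^ (-(n : ℝ) / 4)

/-- The area of the invariant set `A`, and of its complement, is at least `η`. -/
structure InvariantBetween (T : Torus → Torus) (η : ℝ) (A : Set Torus) : Prop where
  invariant : T ⁻¹' A = A
  area : ENNReal.ofReal η ≤ volume A
  areaCompl : ENNReal.ofReal η ≤ volume Aᶜ

theorem sqrt_ge {a : ℝ} (ha : 256 ≤ |a|) : 16 ≤ √|a| := by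
  apply Real.le_sqrt_of_sq_le
  norm_num
  exact ha

theorem scale_eq {a : ℝ} (ha : 256 ≤ |a|) (n : ℕ) : (1 / √√|a|) ^ n = scale a n := by
  have ha0 : 0 < |a| := by linarith
  have h1 : 1 / √√|a| = |a| ^ (-(1:ℝ) / 4) := by
    rw [Real.sqrt_eq_rpow, Real.sqrt_eq_rpow, ← Real.rpow_mul ha0.le, one_div, ← Real.rpow_neg ha0.le]
    norm_num
  unfold scale
  rw [h1, ← Real.rpow_natCast, ← Real.rpow_mul ha0.le]
  congr 1
  ring

/-- **Invariant sets and finite-scale mixing of the standard map, for every parameter `|a| ≥ 256`.** -/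
theorem result (a : ℝ) (ha : 256 ≤ |a|) (T : Torus → Torus) (hT : IsStandardMap a T) :
    -- (1) the boundary of an invariant set, at the scales `|a| ^ (-n / 4)`
    (∀ (η : ℝ) (A : Set Torus), InvariantBetween T η A → ∀ n : ℕ, 1 ≤ n →
      ENNReal.ofReal η ≤ ENNReal.ofReal (err a n) +
        volume (Metric.cthickening (scale a n) (frontier A))) ∧
    -- (2) the length of the boundary of an invariant set
    (∀ (η : ℝ) (A : Set Torus), InvariantBetween T η A →
      ENNReal.ofReal (exp ((η * |a| ^ 2 - 20 * (|a| * √|a|)) / 1920)) ≤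
        1 + 2 * Measure.hausdorffMeasure 1 (frontier A)) ∧
    -- (3) mixing at the scales `|a| ^ (-n / 4)`
    (∃ P Q : ℕ → Set Torus,
      (∀ n, 1 ≤ n → MeasurableSet (P n) ∧ MeasurableSet (Q n) ∧
        volume (P n)ᶜ ≤ ENNReal.ofReal (err a n) ∧ volume (Q n)ᶜ ≤ ENNReal.ofReal (err a n)) ∧
      ∀ n m, 1 ≤ n → 1 ≤ m → ∀ p ∈ P n, ∀ q ∈ Q m, ∃ p' q' : Torus,
        dist p p' ≤ scale a n ∧ dist q q' ≤ scale a m ∧ T^[n + m] p' = q') := by
  have hTS : T = TH705.SM.S a := TH705.SM.eq_S a T hT
  have hM := sqrt_ge ha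
  have haM : |a| = √|a| ^ 2 := (Real.sq_sqrt (abs_nonneg a)).symm
  rw [hTS]
  refine ⟨?_, ?_, ?_⟩
  · intro η A hA n hn
    have h := K7.H81.SL.alt_thick' hM haM hn hA.invariant hA.area hA.areaCompl
    rw [scale_eq ha] at h
    exact h
  · intro η A hA
    have h := K7.H81.SL.length' hM haM hA.invariant hA.area hA.areaCompl
    have e1 : √|a| ^ 4 = |a| ^ 2 := by
      rw [show √|a| ^ 4 = (√|a| ^ 2) ^ 2 by ring, ← haM]
    have e2 : √|a| ^ 3 = |a| * √|a| := by
      rw [show √|a| ^ 3 = √|a| ^ 2 * √|a| by ring, ← haM]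
    rw [e1, e2] at h
    exact h
  · refine ⟨fun n => (toMeasurable volume (K7.H81.SL.bd a (√|a|) n))ᶜ,
      fun n => Prod.swap ⁻¹' (toMeasurable volume (K7.H81.SL.bd a (√|a|) n))ᶜ, ?_, ?_⟩
    · intro n hn
      have h1 : volume (K7.H81.SL.bd a (√|a|) n) ≤ ENNReal.ofReal (err a n) :=
        K7.H81.SL.vol_bd hM haM hn
      refine ⟨(measurableSet_toMeasurable _ _).compl,
        (measurableSet_toMeasurable _ _).compl.preimage measurable_swap, ?_, ?_⟩
      · rw [compl_compl, measure_toMeasurable]
        exact h1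
      · rw [← Set.preimage_compl, compl_compl, Y332.SM.vol_swap, measure_toMeasurable]
        exact h1
    · intro n m hn hm p hp q hq
      obtain ⟨p', q', h1, h2, h3⟩ := K7.H81.SL.mixing' hM haM hn hm
        (fun h => hp (subset_toMeasurable _ _ h)) (fun h => hq (subset_toMeasurable _ _ h))
      rw [scale_eq ha] at h1 h2
      exact ⟨p', q', h1, h2, h3⟩

end Pool.Agent.Results.MP_9ee088_an.BoundariesUpToSquare
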