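import Pool.Agent.K7.H81.CUH

set_option autoImplicit false

/-!
# Finite-time Lyapunov exponents of the standard map up to times `o(|sin 2πa| |a|³ / log² |a|)`

`planeMap a (x, y) = (2x - y + a sin 2πx, x)` is the lift of `S_a` to the plane and
`‖fderiv ℝ (planeMap a)^[n] p‖` is the norm of `DS_a^n` at `p`.  For a parameter `a` with
`sin 2πa ≠ 0`, outside a small set of initial points, the quotient `log ‖DS_a^n‖ / n` stays within
`ε` of `log (π |a|)` at all times `n` of a window `n₀ ≤ n ≤ N`.  The measure of the exceptional set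
tends to zero as soon as `n₀ → ∞`, `|a| → ∞` and `N log² |a| / (|sin 2πa| |a|³) → 0`.
-/

open Real MeasureTheory

namespace Pool.Agent.Results.MP_9ee088_an.ExponentsUpToCube

/-- The lift `(x, y) ↦ (2 x - y + a sin 2 π x, x)` of `S_a` to the plane. -/
noncomputable def planeMap (a : ℝ) (p : ℝ × ℝ) : ℝ × ℝ :=
  (2 * p.1 - p.2 + a * sin (2 * π * p.1), p.1)

/-- **Finite-time exponents up to nearly cubic times, away from the half-integers.** -/
theorem result : ∃ C : ℝ, 0 < C ∧ ∀ a : ℝ, 2 ≤ |a| → sin (2 * π * a) ≠ 0 →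
    ∀ n₀ N : ℕ, 1 ≤ n₀ → ∀ ε : ℝ, 0 < ε → ε ≤ 1 →
    volume {p : ℝ × ℝ | p ∈ Set.Ioc (0:ℝ) 1 ×ˢ Set.Ioc (0:ℝ) 1 ∧ ∃ n : ℕ, n₀ ≤ n ∧ n ≤ N ∧
        ε < |log ‖fderiv ℝ (planeMap a)^[n] p‖ / n - log (π * |a|)|} ≤
      ENNReal.ofReal (C * (((n₀ : ℝ) ^ (-(1 / 3) : ℝ) + |a| ^ (-(1 / 8) : ℝ)) / ε ^ 2 +
        N * log |a| ^ 2 / (|a| ^ 3 * |sin (2 * π * a)|))) := by
  obtain ⟨C, hC, H⟩ := K7.H81.CU.main2
  refine ⟨C, hC, ?_⟩
  intro a ha hs n₀ N hn ε hε hε1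
  obtain ⟨B, hB, hvol, hgood⟩ := H a ha hs n₀ N hn ε hε hε1
  have hpm : planeMap a = V1152.SMI.pm a := rfl
  refine le_trans ?_ hvol
  have hmp := UnitAddCircle.measurePreserving_mk 0
  rw [zero_add] at hmp
  have hprod := hmp.prod hmp
  rw [Measure.prod_restrict] at hprod
  set φ : ℝ × ℝ → UnitAddCircle × UnitAddCircle :=
    Prod.map (fun x : ℝ => (x : UnitAddCircle)) (fun x : ℝ => (x : UnitAddCircle)) with hφ
  have h1 : (volume : Measure (UnitAddCircle × UnitAddCircle)) B =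
      volume (φ ⁻¹' B ∩ Set.Ioc (0:ℝ) 1 ×ˢ Set.Ioc (0:ℝ) 1) := by
    have h2 := hprod.measure_preimage hB.nullMeasurableSet
    rw [Measure.restrict_apply (hprod.measurable hB)] at h2
    exact h2.symm
  rw [h1]
  apply measure_mono
  rintro ⟨x, y⟩ ⟨hp, n, hn1, hn2, hn3⟩
  refine ⟨?_, hp⟩
  by_contra hcon
  have h3 := hgood x y hcon n hn1 hn2
  rw [hpm] at hn3
  exact absurd hn3 (not_lt.2 h3)

end Pool.Agent.Results.MP_9ee088_an.ExponentsUpToCube
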