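import Pool.Agent.K7.H81.NZJ

set_option autoImplicit false

/-!
# The Lyapunov exponent of the standard map with extremely small random noise, for every parameter

To each step of the standard map `S_a (x, y) = (2x - y + a sin 2πx, x)` an independent random number
is added in the first coordinate.  Here: the (mean) Lyapunov exponent of this random system is
`log (π |a|)` up to an error `C log |a| (√(log B) / |a| + 1 / √|a|)`, where `B` bounds the density of
the noise on the circle.  For the uniform noise on `[-ε, ε]` this is `log (π |a|) (1 + o(1))` as soon as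
`log (1 / ε) = o(|a|²)`.  No parameter is excluded.

The proof: the positions at two consecutive times are independent and uniform, so during a block of
`N = o(|a|² / log |a|)` steps no product of two consecutive derivatives is small, and the vectors not
too close to a contracted direction are expanded as they should; four noisy steps before the block
make the vector avoid the contracted direction up to an angle of the order of a power of `1 / B`.
-/

open Real MeasureTheory Filter Topology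

namespace Pool.Agent.Results.MP_9ee088_an.TinyNoise

/-- One step: the lift of `S_a` to the plane, plus the number `t` in the first coordinate. -/
noncomputable def step (a t : ℝ) (p : ℝ × ℝ) : ℝ × ℝ :=
  (2 * p.1 - p.2 + a * sin (2 * π * p.1) + t, p.1)

/-- The first `n` steps, with the noise `w 0, w 1, ..., w (n - 1)`. -/
noncomputable def orbit (a : ℝ) (w : ℕ → ℝ) : ℕ → ℝ × ℝ → ℝ × ℝ
  | 0, p => p
  | n + 1, p => step a (w n) (orbit a w n p)

/-- The mean of `log ‖D(n steps)‖` over a uniform initial point of the torus and independent noise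
with the distribution `ν`. -/
noncomputable def meanGrowth (ν : Measure ℝ) (a : ℝ) (n : ℕ) : ℝ :=
  ∫ w, (∫ p in Set.Ioc (0:ℝ) 1 ×ˢ Set.Ioc (0:ℝ) 1, log ‖fderiv ℝ (orbit a w n) p‖)
    ∂(Measure.infinitePi fun _ : ℕ => ν)

/-- `lam` is the Lyapunov exponent: the limit of the mean growth per step. -/
def IsExponent (ν : Measure ℝ) (a lam : ℝ) : Prop :=
  Tendsto (fun n : ℕ => meanGrowth ν a n / n) atTop (𝓝 lam)

/-- The uniform distribution on `[-ε, ε]`. -/
noncomputable def uniform (ε : ℝ) : Measure ℝ :=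
  (ENNReal.ofReal (2 * ε))⁻¹ • (volume : Measure ℝ).restrict (Set.Icc (-ε) ε)

theorem orbit_eq (a : ℝ) (w : ℕ → ℝ) (n : ℕ) : orbit a w n = K7.H81.NZ.ol a w n := by
  induction n with
  | zero => rfl
  | succ n ih =>
    funext p
    show step a (w n) (orbit a w n p) = K7.H81.NZ.pl a (w n) (K7.H81.NZ.ol a w n p)
    rw [ih]
    rfl

theorem mean_eq (ν : Measure ℝ) {a : ℝ} (ha : 2 ≤ |a|) (n : ℕ) :
    meanGrowth ν a n = K7.H81.NZ.AN ν a n := by
  have h : (fun w => ∫ p in Set.Ioc (0:ℝ) 1 ×ˢ Set.Ioc (0:ℝ) 1,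
      log ‖fderiv ℝ (orbit a w n) p‖) = fun w => ∫ p in Set.Ioc (0:ℝ) 1 ×ˢ Set.Ioc (0:ℝ) 1,
      log ‖fderiv ℝ (K7.H81.NZ.ol a w n) p‖ := by
    funext w
    rw [orbit_eq]
  unfold meanGrowth
  rw [h]
  exact K7.H81.NZ.mean_eq ν ha n

theorem general {a : ℝ} (ha : 2 ≤ |a|) (ν : Measure ℝ) (hν : IsProbabilityMeasure ν) {B : ℝ}
    (hB : ν.map (fun t : ℝ => (t : UnitAddCircle)) ≤
      ENNReal.ofReal B • (volume : Measure UnitAddCircle)) :
    ∃ lam : ℝ, IsExponent ν a lam ∧
      |lam - log (π * |a|)| ≤ 12000 * log |a| * (√(log B) / |a| + 1 / √|a|) := by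
  have hB1 := K7.H81.NZ.one_le_of_le ν hB
  have hlB : 0 ≤ log B := Real.log_nonneg hB1
  have hβ : √(log B) ^ 2 = log B := Real.sq_sqrt hlB
  have hexp : exp (√(log B) ^ 2) = B := by rw [hβ, Real.exp_log (by linarith)]
  refine ⟨K7.H81.NZ.lam ν ha, ?_, ?_⟩
  · have h := K7.H81.NZ.lim_AN ν ha
    have e : (fun n : ℕ => meanGrowth ν a n / n) = fun n : ℕ => K7.H81.NZ.AN ν a n / n := by
      funext n
      rw [mean_eq ν ha n]
    unfold IsExponent
    rw [e]
    exact h
  · have h1 := K7.H81.NZ.lam_low ν ha (Real.sqrt_nonneg (log B)) (by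
      rw [hexp]
      exact K7.H81.NZ.spr_of_le ν hB)
    have h2 := K7.H81.NZ.lam_up ν ha
    have hl : 0 ≤ log |a| := Real.log_nonneg (by linarith)
    have h3 : 12000 * log |a| * (1 / √|a|) ≤
        12000 * log |a| * (√(log B) / |a| + 1 / √|a|) := by
      apply mul_le_mul_of_nonneg_left _ (by positivity)
      have : 0 ≤ √(log B) / |a| := by positivity
      linarith
    rw [abs_le]
    constructor <;> linarith

theorem uniform_case {a : ℝ} (ha : 2 ≤ |a|) {ε : ℝ} (hε : 0 < ε) (hε1 : ε ≤ 1 / 2) :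
    ∃ lam : ℝ, IsExponent (uniform ε) a lam ∧
      |lam - log (π * |a|)| ≤ 12000 * log |a| * (√(log (1 / ε)) / |a| + 1 / √|a|) := by
  obtain ⟨lam, h1, h2⟩ := general ha (uniform ε) (K7.H81.NZ.uni_prob hε)
    (K7.H81.NZ.uni_le hε hε1)
  refine ⟨lam, h1, h2.trans ?_⟩
  have hl : 0 ≤ log |a| := Real.log_nonneg (by linarith)
  have h3 : log (1 / (2 * ε)) ≤ log (1 / ε) := by
    apply Real.log_le_log (by positivity)
    apply one_div_le_one_div_of_le hε
    linarith
  have h4 : √(log (1 / (2 * ε))) / |a| ≤ √(log (1 / ε)) / |a| :=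
    div_le_div_of_nonneg_right (Real.sqrt_le_sqrt h3) (abs_nonneg a)
  apply mul_le_mul_of_nonneg_left _ (by positivity)
  linarith

/-- **The Lyapunov exponent of the standard map with tiny noise, for every parameter.** -/
theorem result :
    -- (1) any independent noise, with a density at most `B` on the circle
    (∃ C : ℝ, 0 < C ∧ ∀ a : ℝ, 2 ≤ |a| → ∀ ν : Measure ℝ, IsProbabilityMeasure ν → ∀ B : ℝ,
      ν.map (fun t : ℝ => (t : UnitAddCircle)) ≤
        ENNReal.ofReal B • (volume : Measure UnitAddCircle) →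
      ∃ lam : ℝ, IsExponent ν a lam ∧
        |lam - log (π * |a|)| ≤ C * log |a| * (√(log B) / |a| + 1 / √|a|)) ∧
    -- (2) the uniform noise on `[-ε, ε]`
    (∃ C : ℝ, 0 < C ∧ ∀ a : ℝ, 2 ≤ |a| → ∀ ε : ℝ, 0 < ε → ε ≤ 1 / 2 →
      ∃ lam : ℝ, IsExponent (uniform ε) a lam ∧
        |lam - log (π * |a|)| ≤ C * log |a| * (√(log (1 / ε)) / |a| + 1 / √|a|)) ∧
    -- (3) noise of size `exp (-c a²)` is enough
    (∀ δ : ℝ, 0 < δ → ∃ c : ℝ, 0 < c ∧ ∃ a₀ : ℝ, ∀ a : ℝ, a₀ ≤ |a| → ∀ ε : ℝ,
      exp (-(c * |a| ^ 2)) ≤ ε → ε ≤ 1 / 2 →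
      ∃ lam : ℝ, IsExponent (uniform ε) a lam ∧ (1 - δ) * log |a| ≤ lam ∧
        lam ≤ (1 + δ) * log |a|) := by
  refine ⟨⟨12000, by norm_num, fun a ha ν hν B hB => general ha ν hν hB⟩,
    ⟨12000, by norm_num, fun a ha ε hε hε1 => uniform_case ha hε hε1⟩, ?_⟩
  intro δ hδ
  set u : ℝ := δ / 48000 with hu
  have hu0 : 0 < u := by positivity
  refine ⟨u ^ 2, by positivity, max 2 (max ((1 / u) ^ 2) (exp (4 / δ))), ?_⟩
  intro a ha ε hε hε1
  have ha2 : 2 ≤ |a| := (le_max_left _ _).trans ha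
  have ha3 : (1 / u) ^ 2 ≤ |a| := ((le_max_left _ _).trans (le_max_right _ _)).trans ha
  have ha4 : exp (4 / δ) ≤ |a| := ((le_max_right _ _).trans (le_max_right _ _)).trans ha
  have ha0 : 0 < |a| := by linarith
  have hε0 : 0 < ε := (Real.exp_pos _).trans_le hε
  obtain ⟨lam, h1, h2⟩ := uniform_case ha2 hε0 hε1
  refine ⟨lam, h1, ?_⟩
  have hl : 4 / δ ≤ log |a| := (Real.le_log_iff_exp_le ha0).2 ha4
  have hl0 : 0 < log |a| := lt_of_lt_of_le (by positivity) hl
  -- the noise
  have h3 : log (1 / ε) ≤ u ^ 2 * |a| ^ 2 := by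
    rw [one_div, Real.log_inv]
    have := (Real.le_log_iff_exp_le hε0).2 hε
    linarith
  have h4 : √(log (1 / ε)) / |a| ≤ u := by
    rw [div_le_iff₀ ha0]
    apply Real.sqrt_le_iff.2
    refine ⟨by positivity, ?_⟩
    rw [mul_pow]
    exact h3
  have h5 : 1 / √|a| ≤ u := by
    have h6 : 1 / u ≤ √|a| := Real.le_sqrt_of_sq_le ha3
    rw [div_le_iff₀ (Real.sqrt_pos.2 ha0)]
    rw [div_le_iff₀ hu0] at h6
    linarith
  have h7 : 12000 * log |a| * (√(log (1 / ε)) / |a| + 1 / √|a|) ≤ δ / 2 * log |a| := by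
    have h8 : 12000 * log |a| * (√(log (1 / ε)) / |a| + 1 / √|a|) ≤
        12000 * log |a| * (u + u) :=
      mul_le_mul_of_nonneg_left (by linarith) (by positivity)
    refine h8.trans (le_of_eq ?_)
    rw [hu]
    ring
  have h9 : log (π * |a|) = log π + log |a| := Real.log_mul Real.pi_pos.ne' ha0.ne'
  have h10 : 0 ≤ log π := Real.log_nonneg (by linarith [Real.pi_gt_three])
  have h11 : log π ≤ 2 := by
    have := Real.log_le_sub_one_of_pos Real.pi_pos
    have h12 : log π ≤ log 4 := Real.log_le_log Real.pi_pos Real.pi_le_four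
    have h13 : log 4 = 2 * log 2 := by
      rw [show (4:ℝ) = 2 ^ 2 by norm_num, Real.log_pow]
      norm_num
    have := Real.log_two_lt_d9
    linarith
  have h14 : 2 ≤ δ / 2 * log |a| := by
    have := mul_le_mul_of_nonneg_left hl (by positivity : 0 ≤ δ / 2)
    have e : δ / 2 * (4 / δ) = 2 := by
      field_simp
      norm_num
    rw [e] at this
    exact this
  have h15 := abs_le.1 (h2.trans h7)
  constructor <;> nlinarith [h15.1, h15.2]

end Pool.Agent.Results.MP_9ee088_an.TinyNoise
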